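import Pool.Agent.H27.G.R_seed8.H306R2.RZ.Defs4

set_option autoImplicit false

namespace Pool.Agent.H648R2.RZHI0

open Finset Filter Topology MeasureTheory Pool.Agent.H306R2.RZ

noncomputable section

/-- the constant `Σ_b e^{1-b}` -/
def KK : ℝ := ∑' b : ℕ, Real.exp (1 - (b : ℝ))

theorem KK_summable : Summable fun b : ℕ => Real.exp (1 - (b : ℝ)) := by
  have h : (fun b : ℕ => Real.exp (1 - (b : ℝ))) = fun b : ℕ => Real.exp 1 * Real.exp (-1) ^ b := by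
    funext b
    rw [← Real.exp_nat_mul, ← Real.exp_add]
    ring_nf
  rw [h]
  apply Summable.mul_left
  exact summable_geometric_of_lt_one (Real.exp_nonneg _) (by rw [Real.exp_lt_one_iff]; norm_num)

theorem KK_pos : 0 ≤ KK := tsum_nonneg fun _ => Real.exp_nonneg _

theorem Phr_nonneg (r : ℕ) (Z : ℝ) : 0 ≤ Phr r Z := by
  unfold Phr
  apply tsum_nonneg
  intro b
  split_ifs
  · exact Real.exp_nonneg _
  · exact le_rfl

theorem Phr_le (r : ℕ) (Z : ℝ) (hZ : 0 < Z) (hZ1 : Z ≤ 1) :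
    Phr r Z ≤ KK * Real.exp (-(1 / Z ^ 4)) := by
  unfold Phr KK
  have hp : ∀ b : ℕ, (if b ≠ 0 ∧ b.Coprime r then Real.exp (-(Real.pi * ((b : ℝ) / Z) ^ 4)) else 0) ≤
      Real.exp (1 - (b : ℝ)) * Real.exp (-(1 / Z ^ 4)) := by
    intro b
    split_ifs with hb
    · rw [← Real.exp_add]
      apply Real.exp_le_exp.2
      have hb1 : (1 : ℝ) ≤ b := by exact_mod_cast Nat.one_le_iff_ne_zero.2 hb.1
      have hw : 1 ≤ 1 / Z ^ 4 := by
        rw [le_div_iff₀ (by positivity)]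
        rw [one_mul]
        exact pow_le_one₀ hZ.le hZ1
      have hq : ((b : ℝ) / Z) ^ 4 = b ^ 4 * (1 / Z ^ 4) := by
        rw [div_pow]; ring
      rw [hq]
      set w := 1 / Z ^ 4
      have hpi : (1 : ℝ) ≤ Real.pi := by linarith [Real.pi_gt_three]
      have h4 : (b : ℝ) ≤ (b : ℝ) ^ 4 := by
        calc (b : ℝ) = (b : ℝ) ^ 1 := (pow_one _).symm
          _ ≤ (b : ℝ) ^ 4 := pow_le_pow_right₀ hb1 (by norm_num)
      have h5 : 0 ≤ (b : ℝ) ^ 4 * w := by positivity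
      have h6 : (b : ℝ) ^ 4 * w ≤ Real.pi * ((b : ℝ) ^ 4 * w) := le_mul_of_one_le_left h5 hpi
      nlinarith [mul_nonneg (sub_nonneg.2 hw) (sub_nonneg.2 (hb1.trans h4))]
    · positivity
  have hs : Summable fun b : ℕ => Real.exp (1 - (b : ℝ)) * Real.exp (-(1 / Z ^ 4)) :=
    KK_summable.mul_right _
  rw [← tsum_mul_right]
  refine Summable.tsum_le_tsum hp ?_ hs
  apply Summable.of_nonneg_of_le _ hp hs
  intro b
  split_ifs
  · exact Real.exp_nonneg _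
  · exact le_rfl

theorem exp_neg_le (t : ℝ) (ht : 0 < t) (m : ℕ) : Real.exp (-t) ≤ m.factorial / t ^ m := by
  have h := Real.pow_div_factorial_le_exp t ht.le m
  rw [Real.exp_neg, le_div_iff₀ (by positivity), inv_mul_le_iff₀ (Real.exp_pos _)]
  rw [div_le_iff₀ (by positivity)] at h
  exact h

/-- pointwise bound for the kernel -/
theorem ThK_le (ε : ℝ) (hε : 0 < ε) (n : ℕ) (M N : ℕ) (hN : 2 ≤ N) (hNM : N ≤ M)
    (g q : ℕ) (hg : 1 ≤ g) (hq : 1 ≤ q) (hgq : g ^ 2 * q ≤ N ^ 2) (k : ℤ)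
    (hk : (N : ℝ) ^ 2 * ((M : ℝ) * N) ^ ε / M < k.natAbs) :
    |ThK M k g q| ≤ KK * (n + 1).factorial * ((M : ℝ) * N) ^ (5 - 2 * ε * n) *
      (1 / (k : ℝ) ^ 2) := by
  have hN1 : (1 : ℝ) ≤ N := by exact_mod_cast (by omega : 1 ≤ N)
  have hM1 : (1 : ℝ) ≤ M := by exact_mod_cast (by omega : 1 ≤ M)
  have hN0 : (0 : ℝ) < N := by linarith
  have hM0 : (0 : ℝ) < M := by linarith
  set X : ℝ := (M : ℝ) * N with hX
  have hX1 : 1 ≤ X := by rw [hX]; nlinarith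
  have hX0 : 0 < X := by linarith
  have hXe : 1 ≤ X ^ ε := Real.one_le_rpow hX1 hε.le
  set kk : ℝ := (k.natAbs : ℝ) with hkk
  have hk0 : 0 < kk := lt_of_le_of_lt (by positivity) hk
  have hk1 : 1 ≤ kk := by
    have h0 : 0 < k.natAbs := by
      rw [hkk] at hk0
      exact_mod_cast hk0
    rw [hkk]
    exact_mod_cast h0
  have hkk2 : kk ^ 2 = (k : ℝ) ^ 2 := by
    rw [hkk]
    have : (k.natAbs : ℝ) = |(k : ℝ)| := by
      rw [Nat.cast_natAbs]; simp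
    rw [this, sq_abs]
  set y : ℝ := kk * M / (N : ℝ) ^ 2 with hy
  have hyX : X ^ ε < y := by
    rw [hy, lt_div_iff₀ (by positivity)]
    rw [div_lt_iff₀ hM0] at hk
    linarith
  have hy0 : 0 < y := by linarith
  have hy1 : 1 ≤ y := by linarith
  -- bound for each e
  have hterm : ∀ e ∈ g.divisors,
      |((ArithmeticFunction.moebius e : ℤ) : ℝ) * ((M : ℝ) / (e * Real.sqrt q)) *
        Phr q (Real.sqrt ((e.gcd k.natAbs : ℝ) ^ 2 * q / ((k.natAbs : ℝ) * M)))| ≤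
      M * (KK * Real.exp (-(y ^ 2))) := by
    intro e he
    have he1 : 1 ≤ e := Nat.pos_of_mem_divisors he
    have hed : e ∣ g := Nat.dvd_of_mem_divisors he
    have heR : (1 : ℝ) ≤ e := by exact_mod_cast he1
    have hqR : (1 : ℝ) ≤ q := by exact_mod_cast hq
    have hsq : 1 ≤ Real.sqrt q := by
      rw [Real.one_le_sqrt]; exact hqR
    have hmu : |((ArithmeticFunction.moebius e : ℤ) : ℝ)| ≤ 1 := by
      have h := ArithmeticFunction.abs_moebius_le_one (n := e)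
      exact_mod_cast h
    have hc : 1 ≤ e.gcd k.natAbs := Nat.gcd_pos_of_pos_left _ he1
    have hcR : (1 : ℝ) ≤ (e.gcd k.natAbs : ℝ) := by exact_mod_cast hc
    have hcg : (e.gcd k.natAbs) ≤ g := (Nat.gcd_le_left _ he1).trans (Nat.le_of_dvd (by omega) hed)
    have hcgR : (e.gcd k.natAbs : ℝ) ≤ g := by exact_mod_cast hcg
    set Z : ℝ := Real.sqrt ((e.gcd k.natAbs : ℝ) ^ 2 * q / ((k.natAbs : ℝ) * M)) with hZ
    have hZ0 : 0 < Z := by
      rw [hZ]; apply Real.sqrt_pos.2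
      have : (0 : ℝ) < (k.natAbs : ℝ) := hk0
      positivity
    have hZ2 : Z ^ 2 = (e.gcd k.natAbs : ℝ) ^ 2 * q / (kk * M) := by
      rw [hZ, Real.sq_sqrt]; positivity
    have hZ2y : Z ^ 2 ≤ 1 / y := by
      rw [hZ2, hy, one_div_div]
      apply div_le_div_of_nonneg_right _ (by positivity)
      calc (e.gcd k.natAbs : ℝ) ^ 2 * q ≤ (g : ℝ) ^ 2 * q := by gcongr
        _ ≤ (N : ℝ) ^ 2 := by exact_mod_cast hgq
    have hZ4 : y ^ 2 ≤ 1 / Z ^ 4 := by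
      rw [le_div_iff₀ (by positivity)]
      have h1 : y * Z ^ 2 ≤ 1 := by
        rw [le_div_iff₀ hy0] at hZ2y; linarith
      have h2 : 0 ≤ y * Z ^ 2 := by positivity
      calc y ^ 2 * Z ^ 4 = (y * Z ^ 2) ^ 2 := by ring
        _ ≤ 1 := pow_le_one₀ h2 h1
    have hZ1 : Z ≤ 1 := by
      have h1 : Z ^ 2 ≤ 1 := hZ2y.trans (by rw [div_le_one hy0]; exact hy1)
      nlinarith
    rw [abs_mul, abs_mul, abs_of_nonneg (Phr_nonneg _ _)]
    have h3 : |(M : ℝ) / (e * Real.sqrt q)| ≤ M := by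
      rw [abs_of_nonneg (by positivity)]
      apply div_le_self hM0.le
      nlinarith
    have h4 : Phr q Z ≤ KK * Real.exp (-(y ^ 2)) := by
      refine (Phr_le q Z hZ0 hZ1).trans ?_
      apply mul_le_mul_of_nonneg_left _ KK_pos
      apply Real.exp_le_exp.2
      linarith
    calc |((ArithmeticFunction.moebius e : ℤ) : ℝ)| * |(M : ℝ) / (e * Real.sqrt q)| * Phr q Z
        ≤ 1 * M * (KK * Real.exp (-(y ^ 2))) := by
          apply mul_le_mul _ h4 (Phr_nonneg _ _) (by positivity)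
          apply mul_le_mul hmu h3 (abs_nonneg _) zero_le_one
      _ = M * (KK * Real.exp (-(y ^ 2))) := by ring
  have hsum : |ThK M k g q| ≤ g * (M * (KK * Real.exp (-(y ^ 2)))) := by
    unfold ThK
    refine (Finset.abs_sum_le_sum_abs _ _).trans ?_
    refine (Finset.sum_le_sum hterm).trans ?_
    rw [Finset.sum_const, nsmul_eq_mul]
    apply mul_le_mul_of_nonneg_right
    · exact_mod_cast Nat.card_divisors_le_self g
    · have := KK_pos
      positivity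
  have hgN : (g : ℝ) ≤ N := by
    have h1 : g ^ 2 ≤ N ^ 2 := le_trans (Nat.le_mul_of_pos_right _ hq) hgq
    have h2 : g ≤ N := (Nat.pow_le_pow_iff_left (by norm_num)).1 h1
    exact_mod_cast h2
  have hexp : Real.exp (-(y ^ 2)) ≤ (n + 1).factorial * (X ^ (4 - 2 * ε * n) * (1 / (k : ℝ) ^ 2)) := by
    refine (exp_neg_le (y ^ 2) (by positivity) (n + 1)).trans ?_
    rw [div_eq_mul_inv]
    apply mul_le_mul_of_nonneg_left _ (by positivity)
    have h1 : (y ^ 2) ^ (n + 1) = y ^ 2 * (y ^ 2) ^ n := by ring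
    have h2 : (X ^ ε) ^ (2 * n) ≤ (y ^ 2) ^ n := by
      rw [← pow_mul]
      exact pow_le_pow_left₀ (by positivity) hyX.le _
    have h3 : (X ^ ε) ^ (2 * n) = X ^ (2 * ε * n) := by
      rw [← Real.rpow_natCast, ← Real.rpow_mul hX0.le]
      congr 1
      push_cast; ring
    rw [h1, mul_inv]
    have h4 : ((y ^ 2) ^ n)⁻¹ ≤ X ^ (-(2 * ε * n)) := by
      rw [Real.rpow_neg hX0.le, ← h3]
      exact inv_anti₀ (by positivity) h2
    have h5 : (y ^ 2)⁻¹ ≤ X ^ (4 : ℝ) * (1 / (k : ℝ) ^ 2) := by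
      rw [← hkk2, hy]
      rw [← one_div, div_pow, one_div_div, mul_pow, mul_one_div]
      rw [div_le_div_iff₀ (by positivity) (by positivity)]
      have h6 : ((N : ℝ) ^ 2) ^ 2 ≤ X ^ (4 : ℝ) * (M : ℝ) ^ 2 := by
        have h7 : X ^ (4 : ℝ) = X ^ 4 := by
          rw [← Real.rpow_natCast]; norm_num
        rw [h7, hX]
        have h8 : (1 : ℝ) ≤ (M : ℝ) ^ 4 * (M : ℝ) ^ 2 := by
          have a1 : (1 : ℝ) ≤ (M : ℝ) ^ 4 := one_le_pow₀ hM1
          have a2 : (1 : ℝ) ≤ (M : ℝ) ^ 2 := one_le_pow₀ hM1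
          nlinarith
        have h9 : (0 : ℝ) ≤ (N : ℝ) ^ 4 := by positivity
        calc ((N : ℝ) ^ 2) ^ 2 = (N : ℝ) ^ 4 * 1 := by ring
          _ ≤ (N : ℝ) ^ 4 * ((M : ℝ) ^ 4 * (M : ℝ) ^ 2) := mul_le_mul_of_nonneg_left h8 h9
          _ = ((M : ℝ) * N) ^ 4 * (M : ℝ) ^ 2 := by ring
      calc ((N : ℝ) ^ 2) ^ 2 * kk ^ 2 ≤ (X ^ (4 : ℝ) * (M : ℝ) ^ 2) * kk ^ 2 :=
            mul_le_mul_of_nonneg_right h6 (by positivity)
        _ = X ^ (4 : ℝ) * (kk ^ 2 * (M : ℝ) ^ 2) := by ring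
    calc (y ^ 2)⁻¹ * ((y ^ 2) ^ n)⁻¹ ≤ (X ^ (4 : ℝ) * (1 / (k : ℝ) ^ 2)) * X ^ (-(2 * ε * n)) := by
          apply mul_le_mul h5 h4 (by positivity) (by positivity)
      _ = X ^ (4 - 2 * ε * n) * (1 / (k : ℝ) ^ 2) := by
          rw [sub_eq_add_neg, Real.rpow_add hX0]; ring
  calc |ThK M k g q| ≤ g * (M * (KK * Real.exp (-(y ^ 2)))) := hsum
    _ ≤ N * (M * (KK * ((n + 1).factorial * (X ^ (4 - 2 * ε * n) * (1 / (k : ℝ) ^ 2))))) := by
        have := KK_pos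
        gcongr
    _ = KK * (n + 1).factorial * (X ^ (1 : ℝ) * X ^ (4 - 2 * ε * n)) * (1 / (k : ℝ) ^ 2) := by
        rw [Real.rpow_one, hX]; ring
    _ = KK * (n + 1).factorial * X ^ (5 - 2 * ε * n) * (1 / (k : ℝ) ^ 2) := by
        rw [← Real.rpow_add hX0]; congr 3; ring

/-- large `k` are negligible -/
theorem HI0 (ε D : ℝ) (hε : 0 < ε) : ∃ C : ℝ, 0 < C ∧ ∀ M N : ℕ, 2 ≤ N → N ≤ M → M ≤ N ^ 2 →
    ∀ g q : ℕ, 1 ≤ g → 1 ≤ q → g ^ 2 * q ≤ N ^ 2 →
      (∑' k : ℤ, if Squarefree k.natAbs ∧ (N : ℝ) ^ 2 * ((M : ℝ) * N) ^ ε / M < k.natAbs then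
        |ThK M k g q| else 0) ≤ C * ((M : ℝ) * N) ^ (-D) := by
  obtain ⟨n, hn⟩ := exists_nat_ge ((D + 5) / (2 * ε))
  have hS : Summable fun k : ℤ => 1 / (k : ℝ) ^ 2 := Real.summable_one_div_int_pow.2 (by norm_num)
  set S : ℝ := ∑' k : ℤ, 1 / (k : ℝ) ^ 2 with hSdef
  have hS0 : 0 ≤ S := tsum_nonneg fun k => by positivity
  have hK := KK_pos
  refine ⟨KK * (n + 1).factorial * S + 1, by positivity, ?_⟩
  intro M N hN hNM _ g q hg hq hgq
  have hN1 : (1 : ℝ) ≤ N := by exact_mod_cast (by omega : 1 ≤ N)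
  have hM1 : (1 : ℝ) ≤ M := by exact_mod_cast (by omega : 1 ≤ M)
  have hX1 : 1 ≤ (M : ℝ) * N := by nlinarith
  have hX0 : 0 < (M : ℝ) * N := by linarith
  have hexp : ((M : ℝ) * N) ^ (5 - 2 * ε * n) ≤ ((M : ℝ) * N) ^ (-D) := by
    apply Real.rpow_le_rpow_of_exponent_le hX1
    rw [div_le_iff₀ (by positivity)] at hn
    linarith
  have hb : ∀ k : ℤ, (if Squarefree k.natAbs ∧ (N : ℝ) ^ 2 * ((M : ℝ) * N) ^ ε / M < k.natAbs then
        |ThK M k g q| else 0) ≤ KK * (n + 1).factorial * ((M : ℝ) * N) ^ (-D) *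
          (1 / (k : ℝ) ^ 2) := by
    intro k
    split_ifs with h
    · refine (ThK_le ε hε n M N hN hNM g q hg hq hgq k h.2).trans ?_
      gcongr
    · positivity
  have hs2 : Summable fun k : ℤ => KK * (n + 1).factorial * ((M : ℝ) * N) ^ (-D) *
          (1 / (k : ℝ) ^ 2) := hS.mul_left _
  have hs1 : Summable fun k : ℤ => (if Squarefree k.natAbs ∧
      (N : ℝ) ^ 2 * ((M : ℝ) * N) ^ ε / M < k.natAbs then |ThK M k g q| else 0) := by
    apply Summable.of_nonneg_of_le _ hb hs2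
    intro k
    split_ifs
    · exact abs_nonneg _
    · exact le_rfl
  refine (Summable.tsum_le_tsum hb hs1 hs2).trans ?_
  rw [tsum_mul_left, ← hSdef]
  have : 0 ≤ ((M : ℝ) * N) ^ (-D) := by positivity
  nlinarith

end

end Pool.Agent.H648R2.RZHI0
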